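import Pool.Agent.TH954.Z.Final
import Pool.Agent.TH954.Z.Gp
import Pool.Agent.TH954.Z.Hyp
import Pool.Agent.TH954.Z.Dense
import Pool.Agent.TH954.Z.Cnt
import Pool.Agent.TH954.Z.Red
import Pool.Agent.TH954.Z.TopB
import Pool.Agent.TH954.Z.WTop
import Pool.Agent.TH954.Y.Comb

/-!
# Vojta's inequality for 100 percent of the rational points of varieties over abelian varieties
-/

set_option autoImplicit false

open MvPolynomial NumberField Pool.Agent.TH954.X Filter

namespace Pool.Agent.Results.MP_17a322_nt.AbelianDensityOne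

section

variable {K : Type} [Field K] {n β : ℕ}

/-- the points over `F` of the product `B` of the abelian varieties `A b` -/
abbrev Pts (A : Fin β → AbV K n) (F : Type) [Field F] [Algebra K F] : Type := ∀ b, (A b).Pt F

/-- the coordinates of a point of `B` -/
def crds {A : Fin β → AbV K n} {F : Type} [Field F] [Algebra K F] (P : Pts A F) :
    Fin β → Fin n → F := fun b => (P b).1

/-- the coordinates of the point `(t, P)` of `ℙ × B`, with `ℙ` the projective space of dimension
`n - 1` -/
def full {A : Fin β → AbV K n} {F : Type} [Field F] [Algebra K F] (t : Fin n → F)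
    (P : Pts A F) : Option (Fin β) → Fin n → F := fun o => Option.elim o t (crds P)

/-- the equations of a closed subscheme of `ℙ × B`: finitely many multihomogeneous forms `f i`, of
multidegrees `δ i` -/
structure Eqs (K : Type) [Field K] (n β : ℕ) where
  s : ℕ
  f : Fin s → MvPolynomial (Option (Fin β) × Fin n) K
  δ : Fin s → Option (Fin β) → ℕ
  hom : ∀ i, MH (δ i) (f i)

/-- the point `(t, P)` of `ℙ × B` lies on the closed subset `X` -/
def On {A : Fin β → AbV K n} (X : Eqs K n β) {F : Type} [Field F] [Algebra K F]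
    (t : Fin n → F) (P : Pts A F) : Prop := ∀ i, ev (X.f i) (full t P) = 0

/-- the sum of the dimensions of the `A b` -/
def dimB (A : Fin β → AbV K n) : ℕ := ∑ b, (A b).dim

/-- the transcendence degree over `K` of the field generated by the coordinates of a point of `B` -/
noncomputable def trdegPt {A : Fin β → AbV K n} {F : Type} [Field F] [Algebra K F] (P : Pts A F) :
    Cardinal :=
  Algebra.trdeg K (IntermediateField.adjoin K
    (Set.range (fun p : Fin β × Fin n => crds P p.1 p.2)))

/-- the dimension of `B` is at most (hence equal to) `dimB A` -/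
def DimensionLe (A : Fin β → AbV K n) : Prop :=
  ∀ (F : Type) [Field F] [Algebra K F] (P : Pts A F), trdegPt P ≤ (dimB A : Cardinal)

/-- the image in `B` of the closed subset `X ∩ W` has codimension at least `c` -/
def ImageCodim (A : Fin β → AbV K n) (X W : Eqs K n β) (c : ℕ) : Prop :=
  ∀ (F : Type) [Field F] [Algebra K F] (t : Fin n → F) (P : Pts A F), t ≠ 0 → On X t P →
    On W t P → trdegPt P + (c : Cardinal) ≤ (dimB A : Cardinal)

/-- the subgroup `Γ` of `B(K)` is dense in `B` in the Zariski topology -/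
def ZariskiDense (A : Fin β → AbV K n) (Γ : AddSubgroup (Pts A K)) : Prop :=
  ∀ (Φ : MvPolynomial (Fin β × Fin n) K) (τ : Fin β → ℕ), MH τ Φ →
    (∀ P ∈ Γ, ev Φ (crds P) = 0) →
    ∀ (F : Type) [Field F] [Algebra K F] (P : Pts A F), ev Φ (crds P) = 0

/-- the local height of `x` with respect to the subscheme `W`: minus the logarithm of
`max_i |f i (x)|_v / ∏_j |x_j|_v ^ (δ i j)`, with `|x_j|_v` the maximum of the absolute values of the
coordinates of `x_j` -/
noncomputable def lambda (W : Eqs K n β) (x : Option (Fin β) → Fin n → K)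
    (v : AbsoluteValue K ℝ) : ℝ :=
  -Real.log (⨆ i, v (ev (W.f i) x) / ∏ j, (⨆ c, v (x j c)) ^ W.δ i j)

variable [NumberField K]

/-- the height with respect to the subscheme `W`: the sum of the local heights over all places -/
noncomputable def heightW (W : Eqs K n β) (x : Option (Fin β) → Fin n → K) : ℝ :=
  ∑ w : InfinitePlace K, (w.mult : ℝ) * lambda W x w.val +
    ∑ᶠ v : FinitePlace K, lambda W x v.val

/-- the proximity function: the sum of the local heights over the places in `S = S1 ∪ S2` -/
noncomputable def proximity (D : Eqs K n β) (S1 : Finset (InfinitePlace K))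
    (S2 : Finset (FinitePlace K)) (x : Option (Fin β) → Fin n → K) : ℝ :=
  ∑ w ∈ S1, (w.mult : ℝ) * lambda D x w.val + ∑ v ∈ S2, lambda D x v.val

/-- the sum of the logarithmic heights of the components of a point of `B` -/
noncomputable def height {A : Fin β → AbV K n} (P : Pts A K) : ℝ :=
  ∑ b, Height.logHeight (crds P b)

/-- the points of `Γ` of height at most `T` -/
def Ball {A : Fin β → AbV K n} (Γ : AddSubgroup (Pts A K)) (T : ℝ) : Set (Pts A K) :=
  {P | P ∈ Γ ∧ height P ≤ T}

/-- the number of points of `Γ` of height at most `T` has the order of magnitude `T ^ (r / 2)`, with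
`r` the rank of `Γ` -/
def Growth {A : Fin β → AbV K n} (Γ : AddSubgroup (Pts A K)) : Prop :=
  ∃ c C T0 : ℝ, 0 < c ∧ ∀ T : ℝ, T0 ≤ T → (Ball Γ T).Finite ∧
    c * T ^ ((Module.finrank ℤ Γ : ℝ) / 2) ≤ ((Ball Γ T).ncard : ℝ) ∧
    ((Ball Γ T).ncard : ℝ) ≤ C * T ^ ((Module.finrank ℤ Γ : ℝ) / 2)

/-- the set `S` has density zero in `Γ`: the proportion of its elements among the points of `Γ` of
height at most `T` tends to zero -/
def DensityZero {A : Fin β → AbV K n} (Γ : AddSubgroup (Pts A K)) (S : Set (Pts A K)) : Prop :=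
  Tendsto (fun T : ℝ => ((Ball Γ T ∩ S).ncard : ℝ) / ((Ball Γ T).ncard : ℝ)) atTop (nhds 0)

/-- the exceptional points `P` of `B(K)`: there is a rational point `x = (t, P)` of `X` over `P` which
is in `W` or in `D` or does not satisfy the inequality `h_W(x) + m_{S,D}(x) ≤ ε h(P)` -/
def Exceptions (A : Fin β → AbV K n) (X W D : Eqs K n β)
    (S1 : Finset (InfinitePlace K)) (S2 : Finset (FinitePlace K)) (ε : ℝ) : Set (Pts A K) :=
  {P | ∃ t : Fin n → K, t ≠ 0 ∧ On X t P ∧ (On W t P ∨ On D t P ∨
    ε * height P < heightW W (full t P) + proximity D S1 S2 (full t P))}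

end

/-- the abelian variety `A` is the elliptic curve `y² = x³ + a x + b`: its points over all extension
fields `F` are those of Mathlib's Weierstrass curve, with the same group law and the coordinates
`(z, x, y, 0, ..., 0)`, equal to `(1, x, y, 0, ..., 0)` for the affine points and to
`(0, 0, 1, 0, ..., 0)` for the point at infinity -/
def IsWeierstrass {K : Type} [Field K] {n : ℕ} (A : AbV K n) (a b : K) : Prop :=
  A.dim = 1 ∧ ∀ (F : Type) [Field F] [DecidableEq F] [Algebra K F],
    ∃ e : A.Pt F ≃+ (We.curve (algebraMap K F a) (algebraMap K F b)).toAffine.Point,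
      ∀ P : A.Pt F, P.1 = fun c : Fin n => if h : c.1 < 3 then We.coords (e P) ⟨c.1, h⟩ else 0

/-- Let `B = ∏ A b` be a product of abelian varieties over the number field `K`, `Γ` a finitely
generated subgroup of `B(K)`, dense in the Zariski topology, of rank `r ≥ 1`, `X` a closed subset of
`ℙ × B`, `W` and `D` closed subschemes of `X` whose images in `B` have codimension at least two and
at least one, and `S` a finite set of places. Then the number of points of `Γ` of height at most `T`
has the order of magnitude `T ^ (r / 2)` and, for each `ε > 0`, the inequality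
`h_W(x) + m_{S,D}(x) ≤ ε h(P)` holds for all rational points `x` of `X` over `P`, for all `P ∈ Γ`
outside a set of density zero. Moreover, products of elliptic curves are examples. -/
theorem result :
    (∀ (K : Type) [Field K] [NumberField K] (n β : ℕ) (A : Fin β → AbV K n), DimensionLe A →
      ∀ Γ : AddSubgroup (Pts A K), Γ.FG → ZariskiDense A Γ → Module.finrank ℤ Γ ≠ 0 →
      ∀ X W D : Eqs K n β, ImageCodim A X W 2 → ImageCodim A X D 1 →
      ∀ (S1 : Finset (InfinitePlace K)) (S2 : Finset (FinitePlace K)),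
        Growth Γ ∧ ∀ ε : ℝ, 0 < ε → DensityZero Γ (Exceptions A X W D S1 S2 ε)) ∧
    ∀ (K : Type) [Field K] [NumberField K] (n : ℕ), 3 ≤ n → ∀ (β : ℕ) (a b : Fin β → K),
      (∀ i, 4 * a i ^ 3 + 27 * b i ^ 2 ≠ 0) →
      ∃ A : Fin β → AbV K n, DimensionLe A ∧ ∀ i, IsWeierstrass (A i) (a i) (b i) := by
  refine ⟨?_, fun K _ _ n hn β a b hd => Pool.Agent.TH954.Z.wtop K n hn β a b hd⟩
  intro K _ _ n β A hA Γ hFG hD hr X W D hcW hcD S1 S2
  obtain ⟨c1, c2, T0, hc1, hT0, hcnt⟩ := Pool.Agent.TH954.Z.cnt K n β A Γ hFG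
  refine ⟨⟨c1, c2, T0, hc1, hcnt⟩, fun ε hε => ?_⟩
  have hdense : Pool.Agent.TH954.Z.DenseB A Γ := by
    rintro Φ τ hτ h0 ⟨F, iF, iA, P, hP⟩
    exact hP (hD Φ τ hτ h0 F P)
  have h1 := Pool.Agent.TH954.Z.finG Pool.Agent.TH954.Z.gp Pool.Agent.TH954.Z.dense
    Pool.Agent.TH954.Z.cnt Pool.Agent.TH954.Z.hyp Pool.Agent.TH954.Z.top
    Pool.Agent.TH954.Z.redG Pool.Agent.TH954.Y.comb A hA Γ hFG hdense hr X.f
    (fun i => ⟨X.δ i, X.hom i⟩) W.f W.δ W.hom D.f D.δ D.hom
    (fun F _ _ t P ht h1 h2 => hcW F t P ht h1 h2)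
    (fun F _ _ t P ht h1 h2 => hcD F t P ht h1 h2) S1 S2 ε hε
  have h2 := Pool.Agent.TH954.Z.Small.tendsto h1 hc1 hT0 (B := Ball Γ)
    (fun T hT => (hcnt T hT).2.1)
  exact h2

end Pool.Agent.Results.MP_17a322_nt.AbelianDensityOne
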