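import Pool.Agent.W659.PV.Fin

/-!
# Lower bounds for counting functions on subvarieties of `A × 𝔾_m^s × 𝔸ⁿ`

`K` is a number field, `A = E_1 × … × E_r` a product of elliptic curves `y² = x³ + a_i x` or
`y² = x³ + b_i` with `a_i, b_i ∈ ℤ`, `X` the closed subvariety `G_1(P, u; t) = … = G_q(P, u; t) = 0`
of `A × 𝔾_m^s × 𝔸ⁿ`, `n ≥ 1`, and `D_i` the divisor `F_i(P, u; t) = 0`, `i = 1, …, m`. The `G_e` and
`F_i` are polynomials with coefficients in `𝓞 K`, multihomogeneous in the coordinates of the plane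
cubics `E_j`, of even degrees in the case of the `F_i`.

Theorem: the following are equivalent.

1. For one embedding `σ : K → ℂ` there is no complex point `(P, u)` of `A × 𝔾_m^s` at which all the
   polynomials `G_e(P, u; T)` vanish identically and all the `F_i(P, u; T)` are squares.
2. The same for all embeddings.
3. For every finite extension `L` of `K`, every finitely generated `Γ ≤ Lˣ` and every finite set `S`
   of primes of `L` there are `η > 0` and `C` such that for all `D, H ≥ 1` the number of the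
   `τ ∈ (𝓞 L)ⁿ` with coordinates of size at most `H` with respect to an integral basis for which there
   is a point `(P, u, t)` of `X` with `P ∈ A(L)`, `u ∈ Γ^s`, `t_k ∈ Γ τ_k`, such that for all `i` with
   `F_i(P, u; t) ≠ 0` the product of the norms of the primes `v ∉ S` at which `F_i(P, u; t)` has odd
   valuation is at most `D`, is at most `C D^(2m) H^(nN - η)`, `N = [L : ℚ]`.
4. For every finite extension `L` of `K` and every finitely generated `Γ ≤ Lˣ` there is `τ ∈ (𝓞 L)ⁿ`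
   such that over no point `(P, u, τ)` of `X` with `P ∈ A(L)`, `u ∈ Γ^s` all the `F_i(P, u; τ)` are
   squares in `L`.

The step from 1 to 3 without the units `t_k / τ_k` is theorem `smallOdd` of the library folder
`Pool/Agent/W659` of the starting repository, which was used in results only for `s = 0`.
-/

set_option autoImplicit false

namespace Pool.Agent.Results.MP_17a322_nt.CountingOnSemiabelianFamilies

open MvPolynomial NumberField IsDedekindDomain Pool.Agent.W659.SA Pool.Agent.W659.PV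
open Pool.Agent.W659

/-- There is no complex point `(P, u)` of `A × 𝔾_m^s` at which all the `G_e(P, u; T)` vanish
identically and all the `F_i(P, u; T)` are squares of polynomials in `T = (T_1, …, T_n)`. -/
def NoSplitFibre {K : Type} [Field K] {r s n q m : ℕ} (a b : Fin r → ℤ)
    (G : Fin q → Pol (𝓞 K) r s n) (F : Fin m → Pol (𝓞 K) r s n) (σ : K →+* ℂ) : Prop :=
  ¬ ∃ (V : Fin r → Fin 3 → ℂ) (u : Fin s → ℂ), (∀ i, FD.OnE (a i) (b i) (V i)) ∧ (∀ l, u l ≠ 0) ∧
    (∀ e, spc (toC σ) (G e) V u = 0) ∧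
    ∀ i, ∃ g : MvPolynomial (Fin n) ℂ, spc (toC σ) (F i) V u = g ^ 2

/-- The coefficient vectors of the `τ ∈ (𝓞 L)ⁿ` with coordinates of size at most `H` for which there
are `P ∈ A(L)`, `u ∈ Γ^s` and `t = (z_1 τ_1, …, z_n τ_n)`, `z_k ∈ Γ`, with `G_e(P, u; t) = 0` for all
`e` such that for each `i` with `F_i(P, u; t) ≠ 0` the product of the norms of the primes `v ∉ S` at
which `F_i(P, u; t)` has odd valuation is at most `D`. -/
def SmallCounting (K : Type) [Field K] {L : Type} [Field L] [NumberField L] [Algebra K L] {N : ℕ}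
    (ω : Module.Basis (Fin N) ℤ (𝓞 L)) {r s n q m : ℕ} (a b : Fin r → ℤ)
    (G : Fin q → Pol (𝓞 K) r s n) (F : Fin m → Pol (𝓞 K) r s n) (Γ : Subgroup Lˣ)
    (S : Set (HeightOneSpectrum (𝓞 L))) (D H : ℕ) : Set (Fin n × Fin N → ℤ) :=
  {c | (∀ i, |c i| ≤ H) ∧ ∃ (V : Fin r → Fin 3 → L) (u : Fin s → Lˣ) (z : Fin n → Lˣ),
    (∀ i, FD.OnE (a i) (b i) (V i)) ∧ (∀ l, u l ∈ Γ) ∧ (∀ k, z k ∈ Γ) ∧
      (∀ e, vl (toL K L) (G e) V (fun l => ((u l : Lˣ) : L))
        (fun k => ((z k : Lˣ) : L) * ((vec ω c k : 𝓞 L) : L)) = 0) ∧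
      ∀ i, vl (toL K L) (F i) V (fun l => ((u l : Lˣ) : L))
          (fun k => ((z k : Lˣ) : L) * ((vec ω c k : 𝓞 L) : L)) = 0 ∨
        oddNorm S (vl (toL K L) (F i) V (fun l => ((u l : Lˣ) : L))
          (fun k => ((z k : Lˣ) : L) * ((vec ω c k : 𝓞 L) : L))) ≤ D}

/-- The lower bound for the counting functions, for all number fields `L` containing `K`, all finitely
generated groups `Γ ≤ Lˣ` and all finite sets `S` of primes of `L`. -/
def CountingBound (K : Type) [Field K] {r s n q m : ℕ} (a b : Fin r → ℤ)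
    (G : Fin q → Pol (𝓞 K) r s n) (F : Fin m → Pol (𝓞 K) r s n) : Prop :=
  ∀ (L : Type) [Field L] [NumberField L] [Algebra K L] (N : ℕ) (ω : Module.Basis (Fin N) ℤ (𝓞 L))
    (Γ : Subgroup Lˣ), Γ.FG → ∀ S : Set (HeightOneSpectrum (𝓞 L)), S.Finite →
    ∃ η : ℝ, 0 < η ∧ ∃ C : ℝ, ∀ D H : ℕ, 1 ≤ D → 1 ≤ H →
      (((SmallCounting K ω a b G F Γ S D H).ncard : ℕ) : ℝ) ≤
        C * (D : ℝ) ^ (2 * m) * (H : ℝ) ^ (((n * N : ℕ) : ℝ) - η)

/-- For all number fields `L` containing `K` and all finitely generated groups `Γ ≤ Lˣ` there is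
`τ ∈ (𝓞 L)ⁿ` over which there is no point `(P, u, τ, w)`, `P ∈ A(L)`, `u ∈ Γ^s`, `w ∈ L^m`, with
`G_e(P, u; τ) = 0` and `w_i² = F_i(P, u; τ)`. -/
def NotOnto (K : Type) [Field K] {r s n q m : ℕ} (a b : Fin r → ℤ)
    (G : Fin q → Pol (𝓞 K) r s n) (F : Fin m → Pol (𝓞 K) r s n) : Prop :=
  ∀ (L : Type) [Field L] [NumberField L] [Algebra K L] (Γ : Subgroup Lˣ), Γ.FG →
    ∃ τ : Fin n → 𝓞 L, ¬ ∃ (V : Fin r → Fin 3 → L) (u : Fin s → Lˣ) (w : Fin m → L),
      (∀ i, FD.OnE (a i) (b i) (V i)) ∧ (∀ l, u l ∈ Γ) ∧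
      (∀ e, vl (toL K L) (G e) V (fun l => ((u l : Lˣ) : L)) (fun k => (τ k : L)) = 0) ∧
      ∀ i, w i ^ 2 = vl (toL K L) (F i) V (fun l => ((u l : Lˣ) : L)) (fun k => (τ k : L))

/-! ### From complex points to points over number fields -/

theorem numberField_of_finite (K L : Type) [Field K] [NumberField K] [Field L] [Algebra K L]
    [Module.Finite K L] : NumberField L := by
  have : CharZero L := charZero_of_injective_algebraMap (algebraMap K L).injective
  have : Module.Finite ℚ L := Module.Finite.trans K L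
  exact ⟨⟩

/-- A finitely generated `K`-subalgebra of `ℂ` has a homomorphism to a number field. -/
theorem exists_hom (K : Type) [Field K] [NumberField K] (τ : K →+* ℂ) (T : Set ℂ) (hT : T.Finite) :
    ∃ (A : Subring ℂ) (φ : K →+* A), (∀ x, (φ x : ℂ) = τ x) ∧ T ⊆ A ∧
      ∃ (L : Type) (_ : Field L) (_ : NumberField L) (_ : Algebra K L) (π : A →+* L),
        π.comp φ = algebraMap K L := by
  let _ : Algebra K ℂ := τ.toAlgebra
  let A : Subalgebra K ℂ := Algebra.adjoin K T
  have : Algebra.FiniteType K A := by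
    rw [← Subalgebra.fg_iff_finiteType]
    exact ⟨hT.toFinset, by rw [Set.Finite.coe_toFinset]⟩
  obtain ⟨M, hM⟩ := Ideal.exists_maximal A
  let _ : Field (A ⧸ M) := Ideal.Quotient.field M
  have : Algebra.FiniteType K (A ⧸ M) :=
    Algebra.FiniteType.of_surjective (Ideal.Quotient.mkₐ K M) Ideal.Quotient.mk_surjective
  have : Module.Finite K (A ⧸ M) := finite_of_finite_type_of_isJacobsonRing K (A ⧸ M)
  have hNF : NumberField (A ⧸ M) := numberField_of_finite K (A ⧸ M)
  refine ⟨A.toSubring, algebraMap K A, fun x => rfl, Algebra.subset_adjoin, A ⧸ M, inferInstance,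
    hNF, inferInstance, (Ideal.Quotient.mkₐ K M : A →+* A ⧸ M), ?_⟩
  ext x
  exact (Ideal.Quotient.mkₐ K M).commutes x

theorem spc_hom {O A B : Type} [CommRing O] [CommRing A] [CommRing B] (φ : O →+* A) (ψ : A →+* B)
    {r s n : ℕ} (F : Pol O r s n) (V : Fin r → Fin 3 → A) (u : Fin s → A) :
    MvPolynomial.map ψ (spc φ F V u) = spc (ψ.comp φ) F (fun i j => ψ (V i j)) (fun l => ψ (u l)) := by
  unfold spc
  rw [MvPolynomial.hom_eval₂]
  congr 1
  · ext x
    simp
  · funext x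
    rcases x with x | x | x <;> simp

/-- The points of the fibre `(P, u; T)` over the complex numbers descend to a number field. -/
theorem descend (K : Type) [Field K] [NumberField K] (τ : K →+* ℂ) {r s n q m : ℕ}
    (a b : Fin r → ℤ) (G : Fin q → Pol (𝓞 K) r s n) (F : Fin m → Pol (𝓞 K) r s n)
    (V : Fin r → Fin 3 → ℂ) (u : Fin s → ℂ) (hV : ∀ i, FD.OnE (a i) (b i) (V i))
    (hu : ∀ l, u l ≠ 0) (hG : ∀ e, spc (toC τ) (G e) V u = 0)
    (g : Fin m → MvPolynomial (Fin n) ℂ) (hg : ∀ i, spc (toC τ) (F i) V u = g i ^ 2) :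
    ∃ (L : Type) (_ : Field L) (_ : NumberField L) (_ : Algebra K L) (V' : Fin r → Fin 3 → L)
      (u' : Fin s → Lˣ) (g' : Fin m → MvPolynomial (Fin n) L),
      (∀ i, FD.OnE (a i) (b i) (V' i)) ∧
      (∀ e, spc (toL K L) (G e) V' (fun l => ((u' l : Lˣ) : L)) = 0) ∧
      ∀ i, spc (toL K L) (F i) V' (fun l => ((u' l : Lˣ) : L)) = g' i ^ 2 := by
  classical
  let T : Set ℂ := (Set.range (fun ij : Fin r × Fin 3 => V ij.1 ij.2)) ∪
    (Set.range (fun ij : Fin r × Fin 3 => (V ij.1 ij.2)⁻¹)) ∪ Set.range u ∪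
    Set.range (fun l => (u l)⁻¹) ∪ ⋃ i, (fun e => coeff e (g i)) '' ((g i).support : Set _)
  have hT : T.Finite := by
    refine ((((Set.finite_range _).union (Set.finite_range _)).union (Set.finite_range _)).union
      (Set.finite_range _)).union ?_
    exact Set.finite_iUnion fun i => (Finset.finite_toSet _).image _
  obtain ⟨A, φ, hφ, hTA, L, _, _, _, π, hπ⟩ := exists_hom K τ T hT
  have m1 : ∀ i j, V i j ∈ A := fun i j =>
    hTA (Or.inl (Or.inl (Or.inl (Or.inl ⟨(i, j), rfl⟩))))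
  have m2 : ∀ i j, (V i j)⁻¹ ∈ A := fun i j =>
    hTA (Or.inl (Or.inl (Or.inl (Or.inr ⟨(i, j), rfl⟩))))
  have m3 : ∀ l, u l ∈ A := fun l => hTA (Or.inl (Or.inl (Or.inr ⟨l, rfl⟩)))
  have m4 : ∀ l, (u l)⁻¹ ∈ A := fun l => hTA (Or.inl (Or.inr ⟨l, rfl⟩))
  have m5 : ∀ i e, coeff e (g i) ∈ A := by
    intro i e
    by_cases he : e ∈ (g i).support
    · exact hTA (Or.inr (Set.mem_iUnion.2 ⟨i, ⟨e, he, rfl⟩⟩))
    · rw [MvPolynomial.notMem_support_iff.1 he]
      exact A.zero_mem
  let VA : Fin r → Fin 3 → A := fun i j => ⟨V i j, m1 i j⟩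
  let uA : Fin s → A := fun l => ⟨u l, m3 l⟩
  let gA : Fin m → MvPolynomial (Fin n) A := fun i =>
    ∑ e ∈ (g i).support, monomial e ⟨coeff e (g i), m5 i e⟩
  have hgA : ∀ i, MvPolynomial.map A.subtype (gA i) = g i := by
    intro i
    show MvPolynomial.map A.subtype (∑ e ∈ (g i).support, monomial e ⟨coeff e (g i), m5 i e⟩) = g i
    rw [map_sum]
    simp only [map_monomial]
    exact MvPolynomial.support_sum_monomial_coeff (g i)
  let oA : 𝓞 K →+* A := φ.comp (algebraMap (𝓞 K) K)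
  have hoA : A.subtype.comp oA = toC τ := by
    ext x
    exact hφ _
  have hinj : Function.Injective (MvPolynomial.map A.subtype :
      MvPolynomial (Fin n) A →+* MvPolynomial (Fin n) ℂ) :=
    MvPolynomial.map_injective _ Subtype.coe_injective
  have hGA : ∀ e, spc oA (G e) VA uA = 0 := by
    intro e
    apply hinj
    rw [spc_hom, hoA, map_zero]
    exact hG e
  have hFA : ∀ i, spc oA (F i) VA uA = gA i ^ 2 := by
    intro i
    apply hinj
    rw [spc_hom, hoA, map_pow, hgA]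
    exact hg i
  have hπo : π.comp oA = toL K L := by
    ext x
    have := congrArg (fun f => f ((x : 𝓞 K) : K)) hπ
    exact this
  have hu1 : ∀ l, uA l * ⟨(u l)⁻¹, m4 l⟩ = 1 := fun l =>
    Subtype.ext (mul_inv_cancel₀ (hu l))
  refine ⟨L, inferInstance, inferInstance, inferInstance, fun i j => π (VA i j),
    fun l => ⟨π (uA l), π ⟨(u l)⁻¹, m4 l⟩, by rw [← map_mul, hu1, map_one],
      by rw [mul_comm, ← map_mul, hu1, map_one]⟩, fun i => MvPolynomial.map π (gA i), ?_, ?_, ?_⟩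
  · intro i
    obtain ⟨h0, h1⟩ := hV i
    constructor
    · intro h
      obtain ⟨j, hj⟩ := Function.ne_iff.1 h0
      have h2 : VA i j * ⟨(V i j)⁻¹, m2 i j⟩ = 1 := Subtype.ext (mul_inv_cancel₀ hj)
      have h3 := congrArg π h2
      rw [map_mul, map_one, show π (VA i j) = 0 from congrFun h j, zero_mul] at h3
      exact zero_ne_one h3
    · have h2 : VA i 1 ^ 2 * VA i 2 = VA i 0 ^ 3 + a i * VA i 0 * VA i 2 ^ 2 + b i * VA i 2 ^ 3 := by
        apply Subtype.ext
        push_cast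
        exact h1
      have h3 := congrArg π h2
      simpa using h3
  · intro e
    have := congrArg (MvPolynomial.map π) (hGA e)
    rw [spc_hom, hπo, map_zero] at this
    exact this
  · intro i
    have := congrArg (MvPolynomial.map π) (hFA i)
    rw [spc_hom, hπo, map_pow] at this
    exact this

/-! ### The equivalence -/

theorem spc_scaleT_zero {O : Type} [CommRing O] (φ : O →+* ℂ) {r s n : ℕ}
    (F : Pol O r s n) (V : Fin r → Fin 3 → ℂ) (u : Fin s → ℂ) (z : Fin n → ℂ)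
    (hz : ∀ k, z k ≠ 0) (h : spc φ (scaleT F) V (Fin.append u z) = 0) : spc φ F V u = 0 := by
  rw [spc_scaleT] at h
  have h1 : (aeval (fun k => (C (z k)⁻¹ * X k : MvPolynomial (Fin n) ℂ)) :
      MvPolynomial (Fin n) ℂ →ₐ[ℂ] MvPolynomial (Fin n) ℂ).comp
      (aeval (fun k => (C (z k) * X k : MvPolynomial (Fin n) ℂ))) = AlgHom.id ℂ _ := by
    apply MvPolynomial.algHom_ext
    intro k
    simp only [AlgHom.comp_apply, aeval_X, map_mul, AlgHom.id_apply]
    rw [← algebraMap_eq, AlgHom.commutes, algebraMap_eq, ← mul_assoc, ← C_mul,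
      mul_inv_cancel₀ (hz k), C_1, one_mul]
  have h2 := congrArg (fun f => f (spc φ F V u)) h1
  simp only [AlgHom.comp_apply, AlgHom.id_apply] at h2
  rw [← h2, h, map_zero]

theorem toC_comp {K L : Type} [Field K] [Field L] [NumberField K] [NumberField L] [Algebra K L]
    {σ : K →+* ℂ} {σ' : L →+* ℂ} (hσ' : σ'.comp (algebraMap K L) = σ) :
    (toC σ').comp (algebraMap (𝓞 K) (𝓞 L)) = toC σ := by
  ext x
  have h2 : ((algebraMap (𝓞 K) (𝓞 L) x : 𝓞 L) : L) = algebraMap K L (x : K) := rfl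
  show σ' ((algebraMap (𝓞 K) (𝓞 L) x : 𝓞 L) : L) = σ (x : K)
  rw [h2, ← hσ']
  rfl

/-- From one embedding to the lower bound for the counting functions. -/
theorem counting_of_noSplit (K : Type) [Field K] [NumberField K] (r s n q m : ℕ)
    (a b : Fin r → ℤ) (hab : ∀ i, a i * b i = 0 ∧ (a i ≠ 0 ∨ b i ≠ 0))
    (G : Fin q → Pol (𝓞 K) r s (n + 1)) (d' : Fin q → Fin r → ℕ) (hG : ∀ e, MHomog (G e) (d' e))
    (F : Fin m → Pol (𝓞 K) r s (n + 1)) (d : Fin m → Fin r → ℕ) (hd : ∀ i j, Even (d i j))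
    (hF : ∀ i, MHomog (F i) (d i)) (σ : K →+* ℂ) (h : NoSplitFibre a b G F σ) :
    CountingBound K a b G F := by
  intro L _ _ _ N ω Γ hΓ S hS
  obtain ⟨σ', hσ'⟩ := exists_ext (L := L) σ
  have h1 := toC_comp hσ'
  set ψ : 𝓞 K →+* 𝓞 L := algebraMap (𝓞 K) (𝓞 L) with hψ
  have h2 : (algebraMap (𝓞 L) L).comp ψ = toL K L := by
    ext x
    rfl
  obtain ⟨η, h0, _, C, hC, hb⟩ := smallOdd L N ω r (s + (n + 1)) n q m a b hab Γ hΓ S hS
    (fun e => scaleT (MvPolynomial.map ψ (G e))) d'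
    (fun e => scaleT_homog _ _ ((hG e).map ψ))
    (fun e => scaleT (MvPolynomial.map ψ (F e))) d hd
    (fun e => scaleT_homog _ _ ((hF e).map ψ)) σ' (by
      intro V u hV hu
      have hu1 : u = Fin.append (fun l => u (Fin.castAdd (n + 1) l))
          (fun k => u (Fin.natAdd s k)) := by
        funext l
        refine Fin.addCases (fun l => ?_) (fun k => ?_) l
        · rw [Fin.append_left]
        · rw [Fin.append_right]
      by_contra hcon
      push Not at hcon
      obtain ⟨c1, c2⟩ := hcon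
      apply h
      refine ⟨V, fun l => u (Fin.castAdd (n + 1) l), hV, fun l => hu _, fun e => ?_, fun i => ?_⟩
      · have := c1 e
        rw [hu1] at this
        have := spc_scaleT_zero _ _ _ _ _ (fun k => hu _) this
        rw [spc_mapc, h1] at this
        exact this
      · by_contra hg
        push Not at hg
        obtain ⟨g, hg'⟩ := c2 i
        rw [hu1] at hg'
        refine spc_scaleT_ne (toC σ') (MvPolynomial.map ψ (F i)) V _ _ (fun k => hu _) ?_ g hg'
        intro g2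
        rw [spc_mapc, h1]
        exact hg g2)
  refine ⟨η, h0, C, fun D H hD hH => le_trans ?_ (hb D H hD hH)⟩
  have hfin : (FibOdd ω a b Γ S (fun e => scaleT (MvPolynomial.map ψ (G e)))
      (fun e => scaleT (MvPolynomial.map ψ (F e))) D H).Finite := by
    refine Set.Finite.subset (Set.finite_Icc (fun _ => -(H : ℤ)) (fun _ => (H : ℤ))) ?_
    rintro c ⟨hc, _⟩
    exact ⟨fun i => (abs_le.1 (hc i)).1, fun i => (abs_le.1 (hc i)).2⟩
  refine Nat.cast_le.2 (Set.ncard_le_ncard ?_ hfin)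
  rintro c ⟨h3, V, u, z, hV, hu, hz, hG0, hF0⟩
  have key : ∀ P : Pol (𝓞 K) r s (n + 1),
      vl (algebraMap (𝓞 L) L) (scaleT (MvPolynomial.map ψ P)) V
        (fun l => ((Fin.append u z l : Lˣ) : L)) (fun i => ((vec ω c i : 𝓞 L) : L)) =
      vl (toL K L) P V (fun l => ((u l : Lˣ) : L))
        (fun k => ((z k : Lˣ) : L) * ((vec ω c k : 𝓞 L) : L)) := by
    intro P
    have hap : (fun l => ((Fin.append u z l : Lˣ) : L)) =
        Fin.append (fun l => ((u l : Lˣ) : L)) (fun k => ((z k : Lˣ) : L)) := by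
      funext l
      refine Fin.addCases (fun l => ?_) (fun k => ?_) l
      · rw [Fin.append_left, Fin.append_left]
      · rw [Fin.append_right, Fin.append_right]
    rw [hap, vl_scaleT, vl_mapc, h2]
  refine ⟨h3, V, Fin.append u z, hV, fun l => ?_, fun e => ?_, fun i => ?_⟩
  · refine Fin.addCases (fun l => ?_) (fun k => ?_) l
    · rw [Fin.append_left]
      exact hu l
    · rw [Fin.append_right]
      exact hz k
  · rw [key]
    exact hG0 e
  · rw [key]
    exact hF0 i

theorem oddNorm_sq {K : Type} [Field K] [NumberField K] (S : Set (HeightOneSpectrum (𝓞 K)))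
    (w : K) : oddNorm S (w ^ 2) = 1 := by
  unfold oddNorm
  have h : OddP S (w ^ 2) = ∅ := by
    ext v
    simp only [OddP, Set.mem_ofPred_eq, Set.mem_empty_iff_false, iff_false, not_and, not_not]
    intro _
    exact ⟨v.valuation K w, by rw [map_pow, pow_two]⟩
  rw [h]
  simp

theorem box_ncard (M H : ℕ) {ι : Type} [Fintype ι] (hM : Fintype.card ι = M) :
    {c : ι → ℤ | ∀ i, |c i| ≤ (H : ℤ)}.ncard = (2 * H + 1) ^ M := by
  classical
  have h1 : {c : ι → ℤ | ∀ i, |c i| ≤ (H : ℤ)} =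
      ((Fintype.piFinset fun _ : ι => Finset.Icc (-(H : ℤ)) H : Finset (ι → ℤ)) :
        Set (ι → ℤ)) := by
    ext c
    simp only [Set.mem_ofPred_eq, Finset.mem_coe, Fintype.mem_piFinset, Finset.mem_Icc, abs_le]
  rw [h1, Set.ncard_coe_finset, Fintype.card_piFinset, Finset.prod_const, Finset.card_univ, hM,
    Int.card_Icc]
  congr 1
  omega

theorem notOnto_of_counting (K : Type) [Field K] [NumberField K] (r s n q m : ℕ)
    (a b : Fin r → ℤ) (G : Fin q → Pol (𝓞 K) r s (n + 1)) (F : Fin m → Pol (𝓞 K) r s (n + 1))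
    (h : CountingBound K a b G F) : NotOnto K a b G F := by
  classical
  intro L _ _ _ Γ hΓ
  by_contra hcon
  push Not at hcon
  let N := Module.finrank ℤ (𝓞 L)
  let ω : Module.Basis (Fin N) ℤ (𝓞 L) := Module.finBasis ℤ (𝓞 L)
  obtain ⟨η, hη, C, hC⟩ := h L N ω Γ hΓ ∅ Set.finite_empty
  set M : ℕ := (n + 1) * N with hM
  have hall : ∀ H : ℕ, SmallCounting K ω a b G F Γ ∅ 1 H =
      {c : Fin (n + 1) × Fin N → ℤ | ∀ i, |c i| ≤ (H : ℤ)} := by
    intro H
    ext c
    constructor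
    · rintro ⟨h1, _⟩
      exact h1
    · intro hc
      obtain ⟨V, u, w, hV, hu, hG0, hw⟩ := hcon (fun k => vec ω c k)
      refine ⟨hc, V, u, fun _ => 1, hV, hu, fun _ => Γ.one_mem, fun e => ?_, fun i => ?_⟩
      · simpa using hG0 e
      · right
        have h1 := hw i
        simp only [Units.val_one, one_mul]
        rw [← h1, oddNorm_sq]
  have hle : ∀ H : ℕ, 1 ≤ H → (H : ℝ) ^ (M : ℝ) ≤ C * (H : ℝ) ^ ((M : ℝ) - η) := by
    intro H hH
    have h1 := hC 1 H le_rfl hH
    rw [hall H, box_ncard M H (by rw [Fintype.card_prod, Fintype.card_fin, Fintype.card_fin])] at h1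
    rw [Nat.cast_one, one_pow, mul_one] at h1
    refine le_trans ?_ h1
    rw [Real.rpow_natCast]
    push_cast
    refine pow_le_pow_left₀ (by positivity) ?_ _
    have : (0 : ℝ) ≤ H := by positivity
    linarith
  have hle2 : ∀ H : ℕ, 1 ≤ H → (H : ℝ) ^ η ≤ C := by
    intro H hH
    have h0 : (0 : ℝ) < H := by exact_mod_cast hH
    have h1 := hle H hH
    rw [Real.rpow_sub h0] at h1
    have h2 : (0 : ℝ) < (H : ℝ) ^ (M : ℝ) := Real.rpow_pos_of_pos h0 _
    have h3 : (0 : ℝ) < (H : ℝ) ^ η := Real.rpow_pos_of_pos h0 _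
    rw [mul_div_assoc', le_div_iff₀ h3, mul_comm] at h1
    exact le_of_mul_le_mul_right h1 h2
  have ht : Filter.Tendsto (fun H : ℕ => (H : ℝ) ^ η) Filter.atTop Filter.atTop :=
    (tendsto_rpow_atTop hη).comp tendsto_natCast_atTop_atTop
  obtain ⟨H, hH1, hH2⟩ := ((ht.eventually_gt_atTop C).and (Filter.eventually_ge_atTop 1)).exists
  exact absurd (hle2 H hH2) (not_le.2 hH1)

theorem noSplit_of_notOnto (K : Type) [Field K] [NumberField K] (r s n q m : ℕ)
    (a b : Fin r → ℤ) (G : Fin q → Pol (𝓞 K) r s n) (F : Fin m → Pol (𝓞 K) r s n)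
    (h : NotOnto K a b G F) (τ : K →+* ℂ) : NoSplitFibre a b G F τ := by
  rintro ⟨V, u, hV, hu, hG, hF⟩
  choose g hg using hF
  obtain ⟨L, _, _, _, V', u', g', hV', hG', hF'⟩ := descend K τ a b G F V u hV hu hG g hg
  obtain ⟨t, ht⟩ := h L (Subgroup.closure (Set.range u'))
    ⟨(Set.finite_range u').toFinset, by rw [Set.Finite.coe_toFinset]⟩
  refine ht ⟨V', u', fun i => eval (fun k => (t k : L)) (g' i), hV',
    fun l => Subgroup.subset_closure ⟨l, rfl⟩, fun e => ?_, fun i => ?_⟩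
  · rw [vl_eq, hG' e, map_zero]
  · rw [vl_eq, hF' i, map_pow]

/-- **Lower bounds for the counting functions of the divisors `F_i = 0` on `X ⊆ A × 𝔾_m^s × 𝔸ⁿ`.** -/
theorem result (K : Type) [Field K] [NumberField K] (r s n q m : ℕ)
    (a b : Fin r → ℤ) (hab : ∀ i, a i * b i = 0 ∧ (a i ≠ 0 ∨ b i ≠ 0))
    (G : Fin q → Pol (𝓞 K) r s (n + 1)) (d' : Fin q → Fin r → ℕ) (hG : ∀ e, MHomog (G e) (d' e))
    (F : Fin m → Pol (𝓞 K) r s (n + 1)) (d : Fin m → Fin r → ℕ) (hd : ∀ i j, Even (d i j))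
    (hF : ∀ i, MHomog (F i) (d i)) (σ : K →+* ℂ) :
    [NoSplitFibre a b G F σ, ∀ τ : K →+* ℂ, NoSplitFibre a b G F τ, CountingBound K a b G F,
      NotOnto K a b G F].TFAE := by
  tfae_have 1 → 3 := counting_of_noSplit K r s n q m a b hab G d' hG F d hd hF σ
  tfae_have 3 → 4 := notOnto_of_counting K r s n q m a b G F
  tfae_have 4 → 2 := fun h τ => noSplit_of_notOnto K r s (n + 1) q m a b G F h τ
  tfae_have 2 → 1 := fun h => h σ
  tfae_finish

end Pool.Agent.Results.MP_17a322_nt.CountingOnSemiabelianFamilies
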