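import Mathlib
import Pool.Agent.TH585.VF.MainX

set_option autoImplicit false

/-!
# Vojta's inequality for all smooth projective varieties over `ℚ` and all normal crossings divisors,
at the rational points with few digits

`X` is a smooth projective variety of dimension `N` in `ℙ^(N + s)` with the equations `G k = 0`.
`D = D_1 + ⋯ + D_q` is a divisor of `X` with strict normal crossings, `D_i` the subvariety of `X`
with the equations `F i j = 0`, `j < w`, `F i j` of degree `d i j` (not necessarily a hypersurface
section).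
-/

namespace Pool.Agent.Results.MP_17a322_nt.FewDigitsAllVarieties

open MvPolynomial

/-- `x` is a primitive integer vector; every rational point of a projective space is represented by
exactly two of them, `x` and `-x` -/
def IsPrimitive {M : ℕ} (x : Fin M → ℤ) : Prop :=
  Finset.univ.gcd x = 1

/-- `max |x_i|`, the multiplicative height of the point given by a primitive `x` -/
def height {M : ℕ} (x : Fin M → ℤ) : ℕ :=
  Finset.univ.sup (fun i => (x i).natAbs)

/-- `x` is a point of the variety `X` -/
def OnX {M g : ℕ} (G : Fin g → MvPolynomial (Fin M) ℤ) (x : Fin M → ℤ) : Prop :=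
  ∀ k, eval x (G k) = 0

/-- The local height at the infinite place of the subvariety with the equations `F j = 0` at a
primitive `x`: minus the logarithm of `max_j |F j x| / max |x_i| ^ d j`. -/
noncomputable def localHeightInf {M w : ℕ} (F : Fin w → MvPolynomial (Fin M) ℤ) (d : Fin w → ℕ)
    (x : Fin M → ℤ) : ℝ :=
  -Real.log (⨆ j, |((eval x (F j) : ℤ) : ℝ)| / (height x : ℝ) ^ d j)

/-- The local height at the prime `p` of the subvariety with the equations `F j = 0` at a primitive
`x`: minus the logarithm of `max_j |F j x|_p`. -/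
noncomputable def localHeight {M w : ℕ} (F : Fin w → MvPolynomial (Fin M) ℤ) (p : ℕ)
    (x : Fin M → ℤ) : ℝ :=
  -Real.log (⨆ j, ((padicNorm p ((eval x (F j) : ℤ) : ℚ) : ℚ) : ℝ))

/-- The proximity function `m_{S,D}(x)` of `D = D_1 + ⋯ + D_q` for the infinite place and the primes
`p ∈ S`. -/
noncomputable def proximity {M q w : ℕ} (F : Fin q → Fin w → MvPolynomial (Fin M) ℤ)
    (d : Fin q → Fin w → ℕ) (S : Finset ℕ) (x : Fin M → ℤ) : ℝ :=
  ∑ i, (localHeightInf (F i) (d i) x + ∑ p ∈ S, localHeight (F i) p x)

/-- The columns of `A` are a basis of the tangent space of the affine cone over `X` at `x` (the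
vectors orthogonal to all gradients of equations), `X` being smooth of dimension `N` at `x`. -/
def IsTangentBasis {M N g : ℕ} (G : Fin g → MvPolynomial (Fin M) ℤ) (x : Fin M → ℤ)
    (A : Matrix (Fin M) (Fin (N + 1)) ℤ) : Prop :=
  LinearIndependent ℚ (fun c : Fin (N + 1) => fun j : Fin M => (A j c : ℚ)) ∧
    ∀ k c, ∑ j, eval x (pderiv j (G k)) * A j c = 0

/-- The maximal minor of `A` with the rows `J`. -/
def minor {M N : ℕ} (A : Matrix (Fin M) (Fin (N + 1)) ℤ) (J : Fin (N + 1) → Fin M) : ℤ :=
  (A.submatrix J id).det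

/-- The height `h_K(x)` for the canonical class `K` of `X`. The Gauss map `γ` sends a point of `X` to
its embedded tangent space, `γ^* O(1) = K + (N + 1) H` for the hyperplane class `H`, and `h_K(x)` is
the height of `γ(x)` (the logarithm of the maximum of the absolute values of the Plücker coordinates,
divided by their greatest common divisor) minus `(N + 1) h(x)`. -/
noncomputable def canonicalHeight {M N : ℕ} (x : Fin M → ℤ) (A : Matrix (Fin M) (Fin (N + 1)) ℤ) :
    ℝ :=
  Real.log (((Finset.univ.sup (fun J : Fin (N + 1) → Fin M => (minor A J).natAbs) : ℕ) : ℝ) /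
    ((Finset.univ.gcd (fun J : Fin (N + 1) → Fin M => minor A J) : ℤ) : ℝ)) -
    (N + 1) * Real.log (height x)

/-- The dimension of `X` is at least `N`: some `N + 1` coordinates are algebraically independent on
the cone over `X`. -/
def DimGE {M g : ℕ} (N : ℕ) (G : Fin g → MvPolynomial (Fin M) ℤ) : Prop :=
  ∃ J : Fin (N + 1) → Fin M, ∀ P : MvPolynomial (Fin (N + 1)) ℚ,
    (∀ z : Fin M → ℂ, (∀ k, aeval z (G k) = 0) → aeval (fun i => z (J i)) P = 0) → P = 0

/-- `X` is smooth of codimension `s` and `D` has strict normal crossings on `X` at the rational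
points `z` of `X`: for suitable `s` equations of `X` and one equation of each component of `D`
through `z` all gradients at `z` are linearly independent. -/
def SmoothPair {M g q w : ℕ} (s : ℕ) (G : Fin g → MvPolynomial (Fin M) ℤ)
    (F : Fin q → Fin w → MvPolynomial (Fin M) ℤ) : Prop :=
  ∀ z : Fin M → ℚ, z ≠ 0 → (∀ k, aeval z (G k) = 0) →
    ∃ (K : Fin s → Fin g) (J : Fin q → Fin w),
      LinearIndependent ℚ (Sum.elim
        (fun a : Fin s => fun y : Fin M => aeval z (pderiv y (G (K a))))
        (fun i : {i : Fin q // ∀ j, aeval z (F i j) = 0} => fun y : Fin M =>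
          aeval z (pderiv y (F i.1 (J i.1)))))

/-- The integer vector `x` has at most `r` nonzero digits of size at most `B` in base `b`: it is the
sum of `r` powers of `b` times integer vectors with coordinates of absolute value at most `B`. -/
def FewDigits {M : ℕ} (b r B : ℕ) (x : Fin M → ℤ) : Prop :=
  ∃ (e : Fin r → ℕ) (v : Fin r → Fin M → ℤ), (∀ j i, |v j i| ≤ B) ∧
    ∀ i, x i = ∑ j, v j i * (b : ℤ) ^ (e j)

theorem smooth_int {M g q w : ℕ} (s : ℕ) (G : Fin g → MvPolynomial (Fin M) ℤ)
    (F : Fin q → Fin w → MvPolynomial (Fin M) ℤ) (h : SmoothPair s G F) :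
    Pool.Agent.TH585.VF.NCInt s G F := by
  classical
  intro z hz hzG
  have hz' : (fun i => (z i : ℚ)) ≠ 0 := by
    intro h0
    apply hz
    funext i
    have := congrFun h0 i
    simp only [Pi.zero_apply] at this
    exact_mod_cast this
  have hev : ∀ P : MvPolynomial (Fin M) ℤ,
      aeval (fun i => (z i : ℚ)) P = ((eval z P : ℤ) : ℚ) := by
    intro P
    have h1 : (fun i => (z i : ℚ)) = (algebraMap ℤ ℚ) ∘ z := by
      funext i
      simp
    rw [h1, aeval_algebraMap_apply]
    rfl
  obtain ⟨K, J, hKJ⟩ := h (fun i => (z i : ℚ)) hz' (fun k => by rw [hev, hzG, Int.cast_zero])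
  refine ⟨K, J, fun κ μ hμ hsum => ?_⟩
  rw [Fintype.linearIndependent_iff] at hKJ
  have h2 := hKJ (Sum.elim (fun a => (κ a : ℚ)) (fun i => (μ i.1 : ℚ))) (by
    rw [Fintype.sum_sum_type]
    simp only [Sum.elim_inl, Sum.elim_inr]
    funext y
    rw [Pi.add_apply, Finset.sum_apply, Finset.sum_apply, Pi.zero_apply]
    have h3 := Pool.Agent.TH585.VF.sum_sub
      (fun i => ∀ j, aeval (fun i => (z i : ℚ)) (F i j) = 0)
      (fun i => (μ i : ℚ) * aeval (fun i => (z i : ℚ)) (pderiv y (F i (J i)))) (by
        intro i hi
        have h4 : μ i = 0 := by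
          by_contra h5
          apply hi
          intro j
          rw [hev, hμ i h5 j, Int.cast_zero]
        rw [h4, Int.cast_zero, zero_mul])
    simp only [Pi.smul_apply, smul_eq_mul]
    rw [h3]
    have h5 : ((∑ a, κ a * eval z (pderiv y (G (K a))) +
        ∑ i, μ i * eval z (pderiv y (F i (J i))) : ℤ) : ℚ) = 0 := by
      rw [hsum y, Int.cast_zero]
    push_cast at h5
    rw [← h5]
    congr 1
    · exact Finset.sum_congr rfl fun a _ => by rw [hev]
    · exact Finset.sum_congr rfl fun i _ => by rw [hev])
  constructor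
  · funext a
    have := h2 (Sum.inl a)
    simp only [Sum.elim_inl] at this
    exact_mod_cast this
  · funext i
    by_contra h3
    have h4 : ∀ j, aeval (fun i => (z i : ℚ)) (F i j) = 0 := by
      intro j
      rw [hev, hμ i h3 j, Int.cast_zero]
    have h5 := h2 (Sum.inr ⟨i, h4⟩)
    simp only [Sum.elim_inr] at h5
    exact h3 (by exact_mod_cast h5)

/-- **Main theorem.** Let `X` be a projective variety of dimension `N` over `ℚ` in `ℙ^(N + s)` and
`D` a divisor of `X` such that `X` is smooth and `D` has strict normal crossings at the rational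
points. Let `b ≥ 2` and let `S` consist of the infinite place and the prime divisors of `b`. There
are a form `Φ` that does not vanish on `X` and a constant `C` such that all rational points `x` of
`X` off `D` and off `Φ = 0` which have at most `r` nonzero digits of size at most `B` in base `b`
satisfy Vojta's inequality `m_{S,D}(x) + h_K(x) ≤ C`, with `ε = 0`. -/
theorem result (N s g q w : ℕ) (G : Fin g → MvPolynomial (Fin (N + s + 1)) ℤ) (e : Fin g → ℕ)
    (hG : ∀ k, (G k).IsHomogeneous (e k)) (F : Fin q → Fin w → MvPolynomial (Fin (N + s + 1)) ℤ)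
    (d : Fin q → Fin w → ℕ) (hF : ∀ i j, (F i j).IsHomogeneous (d i j))
    (hdim : DimGE N G) (hsm : SmoothPair s G F) (b : ℕ) (hb : 2 ≤ b) (r B : ℕ) :
    ∃ (Φ : MvPolynomial (Fin (N + s + 1)) ℚ) (k : ℕ) (C : ℝ), Φ.IsHomogeneous k ∧
      (∃ z : Fin (N + s + 1) → ℂ, (∀ k, aeval z (G k) = 0) ∧ aeval z Φ ≠ 0) ∧
      ∀ x : Fin (N + s + 1) → ℤ, IsPrimitive x → OnX G x → FewDigits b r B x →
        eval (fun i => (x i : ℚ)) Φ ≠ 0 → (∀ i, ∃ j, eval x (F i j) ≠ 0) →
        ∀ A : Matrix (Fin (N + s + 1)) (Fin (N + 1)) ℤ, IsTangentBasis G x A →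
          proximity F d b.primeFactors x + canonicalHeight x A ≤ C := by
  classical
  obtain ⟨J, hJ⟩ := hdim
  obtain ⟨Φ, k, C, h1, h2, h3⟩ := Pool.Agent.TH585.VF.mainX (n := N + 1) (s := s) (by omega)
    G e hG F d hF (smooth_int s G F hsm) J b r B hb
  refine ⟨rename J Φ, k, C, h2.rename_isHomogeneous, ?_, ?_⟩
  · by_contra hcon
    push Not at hcon
    apply h1
    apply hJ
    intro z hz
    have := hcon z hz
    rw [aeval_rename] at this
    exact this
  · intro x hx hX hfew hΦ hFx A hA
    rw [eval_rename] at hΦ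
    have h4 := h3 x hfew hx hΦ hX hFx A (by
      intro y hy
      have h5 := Fintype.linearIndependent_iff.1 hA.1 y (by
        funext j
        rw [Finset.sum_apply, Pi.zero_apply, ← hy j]
        exact Finset.sum_congr rfl fun c _ => by rw [Pi.smul_apply, smul_eq_mul, mul_comm])
      exact funext h5) hA.2
    have h6 : proximity F d b.primeFactors x + canonicalHeight x A =
        (∑ i, (Pool.Agent.TH585.VF.locInf (F i) (d i) (height x) x +
          ∑ p ∈ b.primeFactors, Pool.Agent.TH585.VF.locP (F i) p x) +
        Real.log (Pool.Agent.TH585.VF.ratio (fun J : Fin (N + 1) → Fin (N + s + 1) =>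
          (A.submatrix J id).det))) - (N + 1) * Real.log (height x) := by
      unfold canonicalHeight
      rw [← add_sub_assoc]
      rfl
    rw [h6]
    push_cast at h4
    have h7 : (∑ i, (Pool.Agent.TH585.VF.locInf (F i) (d i) (height x) x +
          ∑ p ∈ b.primeFactors, Pool.Agent.TH585.VF.locP (F i) p x) +
        Real.log (Pool.Agent.TH585.VF.ratio (fun J : Fin (N + 1) → Fin (N + s + 1) =>
          (A.submatrix J id).det))) ≤ (N + 1) * Real.log (height x) + C := h4
    linarith

end Pool.Agent.Results.MP_17a322_nt.FewDigitsAllVarieties
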