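import Pool.Agent.TH42.NC.Shell

set_option autoImplicit false

/-!
# Vojta's inequality on `ℙ^N` with respect to any strict normal crossings divisor: the exceptional
points are not more than the points of a hyperplane

`D = D_1 + ⋯ + D_q` is a divisor of `ℙ^N` over `ℚ`, `D_j` the hypersurface `F j = 0` of degree `d j`,
`S` a finite set of primes.
-/

namespace Pool.Agent.Results.MP_17a322_nt.NormalCrossings

/-- `x` is a primitive integer vector; every rational point of `ℙ^N` is represented by exactly two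
of them, `x` and `-x` -/
def IsPrimitive {N : ℕ} (x : Fin (N + 1) → ℤ) : Prop :=
  Finset.univ.gcd x = 1

/-- `max |x_i|`, the multiplicative height of the point given by a primitive `x` -/
def height {N : ℕ} (x : Fin (N + 1) → ℤ) : ℕ :=
  Finset.univ.sup (fun i => (x i).natAbs)

/-- The proximity function `m_{S,D}(x)` of the divisor `D` with the components `F j = 0` of degrees
`d j`, for the places `∞` and `p ∈ S`, at a primitive `x` off `D`: the local height of `F j = 0` at
`∞` is `log (max |x_i| ^ d j / |F j x|)`, the local height at `p` is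
`log (1 / |F j x|_p) = ord_p (F j x) log p`. -/
noncomputable def proximity {N q : ℕ} (F : Fin q → MvPolynomial (Fin (N + 1)) ℤ) (d : Fin q → ℕ)
    (S : Finset ℕ) (x : Fin (N + 1) → ℤ) : ℝ :=
  ∑ j, (Real.log ((height x : ℝ) ^ d j / |((MvPolynomial.eval x (F j) : ℤ) : ℝ)|) +
    ∑ p ∈ S, (padicValInt p (MvPolynomial.eval x (F j)) : ℝ) * Real.log p)

/-- The divisor `∑ j, {F j = 0}` has strict normal crossings at its points over the field `K`: at
every point `z` the gradients of those `F j` that vanish at `z` are linearly independent, so these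
components are smooth at `z` and meet transversally. -/
def NormalCrossingsOver {N q : ℕ} (F : Fin q → MvPolynomial (Fin (N + 1)) ℤ) (K : Type) [Field K] :
    Prop :=
  ∀ z : Fin (N + 1) → K, z ≠ 0 →
    LinearIndependent K (fun j : {j : Fin q // MvPolynomial.aeval z (F j) = 0} =>
      fun i => MvPolynomial.aeval z (MvPolynomial.pderiv i (F j.1)))

theorem natAbs_le_height {N : ℕ} (x : Fin (N + 1) → ℤ) (i : Fin (N + 1)) :
    |(x i : ℝ)| ≤ height x := by
  have : (x i).natAbs ≤ height x :=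
    Finset.le_sup (f := fun i => (x i).natAbs) (Finset.mem_univ i)
  have h2 : (((x i).natAbs : ℕ) : ℝ) ≤ (height x : ℝ) := by exact_mod_cast this
  rw [Nat.cast_natAbs] at h2
  push_cast at h2
  exact h2

theorem exists_height {N : ℕ} (x : Fin (N + 1) → ℤ) : ∃ i, (height x : ℝ) ≤ |(x i : ℝ)| := by
  obtain ⟨i, _, hi⟩ := Finset.exists_mem_eq_sup Finset.univ ⟨0, Finset.mem_univ _⟩
    (fun i => (x i).natAbs)
  refine ⟨i, ?_⟩
  have h1 : (height x : ℝ) = (((x i).natAbs : ℕ) : ℝ) := by
    unfold height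
    rw [hi]
  rw [h1, Nat.cast_natAbs]
  push_cast
  exact le_rfl

theorem one_le_height {N : ℕ} (x : Fin (N + 1) → ℤ) (hx : IsPrimitive x) : 1 ≤ height x := by
  rw [Nat.one_le_iff_ne_zero]
  intro h0
  have h2 : x = 0 := by
    funext i
    have h3 := natAbs_le_height x i
    rw [h0, Nat.cast_zero] at h3
    have h4 : (x i : ℝ) = 0 := abs_eq_zero.mp (le_antisymm h3 (abs_nonneg _))
    exact_mod_cast h4
  rw [h2] at hx
  unfold IsPrimitive at hx
  have h5 : Finset.univ.gcd (0 : Fin (N + 1) → ℤ) = 0 := by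
    rw [Finset.gcd_eq_zero_iff]
    intro i _
    rfl
  rw [h5] at hx
  exact zero_ne_one hx

/-- **Main theorem.** Let `D = ∑ j, {F j = 0}` be a divisor of `ℙ^N` over `ℚ`, with components of
arbitrary degrees, which has strict normal crossings (at its real points and at its `p`-adic points
for `p ∈ S`), `κ`, `c` real and `δ > 0`. Then for all `B ≥ 1` at most
`C * B ^ (N + max (1 - κ) 0 + δ)` rational points of `ℙ^N` of height at most `B` off `D` satisfy
`κ h(x) + c ≤ m_{S,D}(x)`. For `κ = N + 1 + ε`, and even for every `κ ≥ 1`, the bound is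
`C * B ^ (N + δ)`, the number of rational points of a hyperplane. -/
theorem result (N q : ℕ) (F : Fin q → MvPolynomial (Fin (N + 1)) ℤ) (d : Fin q → ℕ)
    (hF : ∀ j, (F j).IsHomogeneous (d j)) (S : Finset ℕ) (hS : ∀ p ∈ S, p.Prime)
    (hreal : NormalCrossingsOver F ℝ)
    (hpadic : ∀ (p : ℕ) [Fact p.Prime], p ∈ S → NormalCrossingsOver F ℚ_[p])
    (κ c δ : ℝ) (hδ : 0 < δ) :
    ∃ C : ℝ, 0 < C ∧ ∀ B : ℝ, 1 ≤ B →
      {x : Fin (N + 1) → ℤ | IsPrimitive x ∧ (height x : ℝ) ≤ B ∧
        (∀ j, MvPolynomial.eval x (F j) ≠ 0) ∧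
        κ * Real.log (height x) + c ≤ proximity F d S x}.Finite ∧
      ({x : Fin (N + 1) → ℤ | IsPrimitive x ∧ (height x : ℝ) ≤ B ∧
        (∀ j, MvPolynomial.eval x (F j) ≠ 0) ∧
        κ * Real.log (height x) + c ≤ proximity F d S x}.ncard : ℝ) ≤
          C * B ^ ((N : ℝ) + max (1 - κ) 0 + δ) := by
  classical
  obtain ⟨C1, hC1, hshell⟩ := Pool.Agent.TH42.NC.shell F d hF S hS hreal
    (fun p hp _ => hpadic p hp) κ c δ hδ
  set η : ℝ := ((N + 1 : ℕ) : ℝ) - min (max κ 0) 1 + δ with hη
  have hθ1 : min (max κ 0) 1 ≤ 1 := min_le_right _ _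
  have hη0 : 0 < η := by
    rw [hη]
    push_cast
    have : (0 : ℝ) ≤ N := by positivity
    linarith
  have h2η : (2 : ℝ) ^ (-η) < 1 := Real.rpow_lt_one_of_one_lt_of_neg one_lt_two (by linarith)
  have h2η0 : 0 < 1 - (2 : ℝ) ^ (-η) := by linarith
  set C3 : ℝ := 3 ^ (N + 1) + C1 / (1 - (2 : ℝ) ^ (-η)) with hC3
  have hC31 : (3 : ℝ) ^ (N + 1) ≤ C3 := by
    rw [hC3]
    have : 0 ≤ C1 / (1 - (2 : ℝ) ^ (-η)) := by positivity
    linarith
  have hC30 : 0 < C3 := lt_of_lt_of_le (by positivity) hC31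
  have hC32 : C1 ≤ C3 * (1 - (2 : ℝ) ^ (-η)) := by
    rw [hC3, add_mul, div_mul_cancel₀ _ h2η0.ne']
    have : 0 ≤ (3 : ℝ) ^ (N + 1) * (1 - (2 : ℝ) ^ (-η)) := by positivity
    linarith
  have hsmall : ∀ B : ℝ, 1 ≤ B → B < 2 → ∀ X : Finset (Fin (N + 1) → ℤ),
      (∀ x ∈ X, (height x : ℝ) ≤ B) → (X.card : ℝ) ≤ C3 * B ^ η := by
    intro B hB1 hB2 X hX
    have h1 : X ⊆ Fintype.piFinset (fun _ : Fin (N + 1) => Finset.Icc (-1 : ℤ) 1) := by
      intro x hx
      rw [Fintype.mem_piFinset]
      intro i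
      rw [Finset.mem_Icc]
      have h2 : (height x : ℝ) < 2 := lt_of_le_of_lt (hX x hx) hB2
      have h3 : height x ≤ 1 := by
        have : height x < 2 := by exact_mod_cast h2
        omega
      have h4 : (x i).natAbs ≤ height x :=
        Finset.le_sup (f := fun i => (x i).natAbs) (Finset.mem_univ i)
      omega
    have h2 := Finset.card_le_card h1
    rw [Fintype.card_piFinset] at h2
    simp only [Int.card_Icc, Finset.prod_const, Finset.card_univ, Fintype.card_fin] at h2
    have h3 : (X.card : ℝ) ≤ 3 ^ (N + 1) := by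
      have h4 : X.card ≤ 3 ^ (N + 1) := by simpa using h2
      exact_mod_cast h4
    have h4 : 1 ≤ B ^ η := Real.one_le_rpow hB1 hη0.le
    calc (X.card : ℝ) ≤ C3 := h3.trans hC31
      _ ≤ C3 * B ^ η := le_mul_of_one_le_right hC30.le h4
  have key : ∀ k : ℕ, ∀ B : ℝ, 1 ≤ B → B < 2 ^ (k + 1) → ∀ X : Finset (Fin (N + 1) → ℤ),
      (∀ x ∈ X, IsPrimitive x ∧ (height x : ℝ) ≤ B ∧ (∀ j, MvPolynomial.eval x (F j) ≠ 0) ∧
        κ * Real.log (height x) + c ≤ proximity F d S x) → (X.card : ℝ) ≤ C3 * B ^ η := by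
    intro k
    induction k with
    | zero =>
      intro B hB1 hB2 X hX
      exact hsmall B hB1 (by simpa using hB2) X fun x hx => (hX x hx).2.1
    | succ k ih =>
      intro B hB1 hB2 X hX
      by_cases hB : B < 2
      · exact hsmall B hB1 hB X fun x hx => (hX x hx).2.1
      push Not at hB
      have hB0 : 0 < B := by linarith
      have h1 := ih (B / 2) (by linarith) (by
        rw [div_lt_iff₀ (by norm_num)]
        calc B < 2 ^ (k + 1 + 1) := hB2
          _ = 2 ^ (k + 1) * 2 := by rw [pow_succ]) (X.filter (fun x => (height x : ℝ) ≤ B / 2))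
        (fun x hx => by
          obtain ⟨hx1, hx2⟩ := Finset.mem_filter.mp hx
          obtain ⟨h1, _, h3, h4⟩ := hX x hx1
          exact ⟨h1, hx2, h3, h4⟩)
      have h2 := hshell B hB (X.filter (fun x => ¬ (height x : ℝ) ≤ B / 2)) (fun x hx => by
        obtain ⟨hx1, hx2⟩ := Finset.mem_filter.mp hx
        obtain ⟨h1, h2, h3, h4⟩ := hX x hx1
        push Not at hx2
        refine ⟨h1, h3, (height x : ℝ), by exact_mod_cast one_le_height x h1, hx2.le, h2,
          natAbs_le_height x, exists_height x, h4⟩)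
      have h3 := Finset.card_filter_add_card_filter_not (s := X)
        (fun x => (height x : ℝ) ≤ B / 2)
      have h4 : (X.card : ℝ) = ((X.filter (fun x => (height x : ℝ) ≤ B / 2)).card : ℝ) +
          ((X.filter (fun x => ¬ (height x : ℝ) ≤ B / 2)).card : ℝ) := by
        exact_mod_cast h3.symm
      have h5 : (B / 2) ^ η = B ^ η * (2 : ℝ) ^ (-η) := by
        rw [Real.div_rpow hB0.le (by norm_num), Real.rpow_neg (by norm_num), div_eq_mul_inv]
      rw [h4]
      rw [h5] at h1
      have h6 : 0 < B ^ η := by positivity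
      have h7 := mul_le_mul_of_nonneg_right hC32 h6.le
      calc ((X.filter (fun x => (height x : ℝ) ≤ B / 2)).card : ℝ) +
          ((X.filter (fun x => ¬ (height x : ℝ) ≤ B / 2)).card : ℝ) ≤
            C3 * (B ^ η * (2 : ℝ) ^ (-η)) + C1 * B ^ η := add_le_add h1 h2
        _ ≤ C3 * (B ^ η * (2 : ℝ) ^ (-η)) + C3 * (1 - (2 : ℝ) ^ (-η)) * B ^ η := by linarith
        _ = C3 * B ^ η := by ring
  refine ⟨C3, hC30, fun B hB => ?_⟩
  have hB0 : 0 < B := by linarith
  set V : Set (Fin (N + 1) → ℤ) := {x : Fin (N + 1) → ℤ | IsPrimitive x ∧ (height x : ℝ) ≤ B ∧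
        (∀ j, MvPolynomial.eval x (F j) ≠ 0) ∧
        κ * Real.log (height x) + c ≤ proximity F d S x} with hV
  have hfin : V.Finite := by
    apply (Set.finite_Icc (fun _ : Fin (N + 1) => -(⌊B⌋₊ : ℤ)) (fun _ => (⌊B⌋₊ : ℤ))).subset
    intro x hx
    have h1 : height x ≤ ⌊B⌋₊ := Nat.le_floor hx.2.1
    have h2 : ∀ i, (x i).natAbs ≤ ⌊B⌋₊ := fun i =>
      (Finset.le_sup (f := fun i => (x i).natAbs) (Finset.mem_univ i)).trans h1
    rw [Set.mem_Icc]
    constructor
    · intro i
      have := h2 i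
      show -(⌊B⌋₊ : ℤ) ≤ x i
      omega
    · intro i
      have := h2 i
      show x i ≤ (⌊B⌋₊ : ℤ)
      omega
  refine ⟨hfin, ?_⟩
  rw [Set.ncard_eq_toFinset_card V hfin]
  obtain ⟨k, hk⟩ := pow_unbounded_of_one_lt B (one_lt_two (α := ℝ))
  have h1 := key k B hB (hk.trans_le (pow_le_pow_right₀ one_le_two (by omega))) hfin.toFinset
    (fun x hx => (Set.Finite.mem_toFinset hfin).mp hx)
  refine h1.trans (mul_le_mul_of_nonneg_left ?_ hC30.le)
  apply Real.rpow_le_rpow_of_exponent_le hB
  rw [hη]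
  push_cast
  rcases le_total κ 0 with h | h
  · rw [max_eq_right h, min_eq_left zero_le_one, max_eq_left (by linarith)]
    linarith
  · rw [max_eq_left h]
    rcases le_total κ 1 with h' | h'
    · rw [min_eq_left h', max_eq_left (by linarith)]
      linarith
    · rw [min_eq_right h', max_eq_right (by linarith)]
      linarith

end Pool.Agent.Results.MP_17a322_nt.NormalCrossings
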